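import Mathlib

set_option autoImplicit false

universe u

open Set Filter Topology

namespace Pool.Agent.MP_d985ac_gt.H93

/-- Closure of a set under countably-valued operations on finite sets. -/
inductive Cl {S : Type u} (op : Finset S → Set S) (A : Set S) : S → Prop
  | base (x : S) (hx : x ∈ A) : Cl op A x
  | step (F : Finset S) (x : S) (hF : ∀ y, y ∈ F → Cl op A y) (hx : x ∈ op F) : Cl op A x

theorem Cl.mono {S : Type u} {op : Finset S → Set S} {A B : Set S} (h : A ⊆ B) {x : S}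
    (hx : Cl op A x) : Cl op B x := by
  induction hx with
  | base x hx => exact Cl.base x (h hx)
  | step F x _ hx ih => exact Cl.step F x ih hx

theorem Cl.finitary {S : Type u} {op : Finset S → Set S} {A : Set S} {x : S}
    (hx : Cl op A x) : ∃ G : Finset S, (G : Set S) ⊆ A ∧ Cl op (G : Set S) x := by
  classical
  induction hx with
  | base x hx => exact ⟨{x}, by simpa using hx, Cl.base x (by simp)⟩
  | step F x _ hx ih =>
    choose G hG using ih
    refine ⟨F.attach.biUnion (fun y => G y.1 y.2), ?_, Cl.step F x ?_ hx⟩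
    · intro z hz
      simp only [Finset.coe_biUnion, Finset.coe_attach, mem_univ, iUnion_true, mem_iUnion,
        Finset.mem_coe] at hz
      obtain ⟨y, hy⟩ := hz
      exact (hG y.1 y.2).1 hy
    · intro y hy
      refine (hG y hy).2.mono ?_
      intro z hz
      simp only [Finset.coe_biUnion, Finset.coe_attach, mem_univ, iUnion_true, mem_iUnion,
        Finset.mem_coe]
      exact ⟨⟨y, hy⟩, hz⟩

/-- The finite stages of the closure. -/
def stage {S : Type u} (op : Finset S → Set S) (A : Set S) : ℕ → Set S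
  | 0 => A
  | n + 1 => stage op A n ∪ ⋃ F ∈ {F : Finset S | (F : Set S) ⊆ stage op A n}, op F

theorem stage_mono {S : Type u} (op : Finset S → Set S) (A : Set S) : Monotone (stage op A) :=
  monotone_nat_of_le_succ fun _ => subset_union_left

theorem countable_finsets {S : Type u} {T : Set S} (hT : T.Countable) :
    {F : Finset S | (F : Set S) ⊆ T}.Countable := by
  have h := countable_ofPred_finite_subset hT
  have h2 := h.preimage (f := fun F : Finset S => (F : Set S)) Finset.coe_injective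
  refine h2.mono ?_
  intro F hF
  exact ⟨F.finite_toSet, hF⟩

theorem stage_countable {S : Type u} {op : Finset S → Set S} (hop : ∀ F, (op F).Countable)
    {A : Set S} (hA : A.Countable) (n : ℕ) : (stage op A n).Countable := by
  induction n with
  | zero => exact hA
  | succ n ih => exact ih.union ((countable_finsets ih).biUnion fun F _ => hop F)

theorem Cl.mem_stage {S : Type u} {op : Finset S → Set S} {A : Set S} {x : S}
    (hx : Cl op A x) : ∃ n, x ∈ stage op A n := by
  induction hx with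
  | base x hx => exact ⟨0, hx⟩
  | step F x _ hx ih =>
    choose n hn using ih
    refine ⟨F.attach.sup (fun y => n y.1 y.2) + 1, Or.inr ?_⟩
    simp only [mem_iUnion]
    refine ⟨F, ?_, hx⟩
    intro y hy
    exact stage_mono op A (Finset.le_sup (f := fun y : F => n y.1 y.2)
      (Finset.mem_attach F ⟨y, hy⟩)) (hn y hy)

theorem Cl.countable {S : Type u} {op : Finset S → Set S} (hop : ∀ F, (op F).Countable)
    {A : Set S} (hA : A.Countable) : {x | Cl op A x}.Countable :=
  (countable_iUnion fun n => stage_countable hop hA n).mono fun _ hx =>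
    mem_iUnion.2 (Cl.mem_stage hx)

/-- A countable subset that is dense for finitely many real functions. -/
theorem exists_countable_dense {Z W : Type u} (q : Z → W → ℝ) (T : Set Z) (F : Finset W) :
    ∃ D : Set Z, D ⊆ T ∧ D.Countable ∧
      ∀ z ∈ T, ∀ ε > 0, ∃ d ∈ D, ∀ w ∈ F, |q d w - q z w| < ε := by
  let p : Z → (F → ℝ) := fun z w => q z w.1
  obtain ⟨t, hts, htc, hst⟩ :=
    (TopologicalSpace.IsSeparable.of_separableSpace (p '' T)).exists_countable_dense_subset
  have : ∀ u : t, ∃ z ∈ T, p z = u.1 := fun u => hts u.2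
  choose d hdT hd using this
  have := htc.to_subtype
  refine ⟨range d, ?_, countable_range d, ?_⟩
  · rintro _ ⟨u, rfl⟩
    exact hdT u
  · intro z hz ε hε
    obtain ⟨u, hu, hzu⟩ := Metric.mem_closure_iff.1 (hst (mem_image_of_mem p hz)) ε hε
    refine ⟨d ⟨u, hu⟩, mem_range_self _, fun w hw => ?_⟩
    have h1 : dist (p z ⟨w, hw⟩) (u ⟨w, hw⟩) < ε := (dist_le_pi_dist _ _ _).trans_lt hzu
    have h2 : u ⟨w, hw⟩ = q (d ⟨u, hu⟩) w := by
      have := congrFun (hd ⟨u, hu⟩) ⟨w, hw⟩
      exact this.symm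
    rw [h2, Real.dist_eq, abs_sub_comm] at h1
    exact h1

/-- The closing-off operator for a real matrix `Φ`. -/
theorem exists_pairClosure {X Y : Type u} (Φ : X → Y → ℝ) (X₀ : Set X) :
    ∃ cl : Set (X ⊕ Y) → Set (X ⊕ Y),
      (∀ S, S ⊆ cl S) ∧ (∀ S T, S ⊆ T → cl S ⊆ cl T) ∧
      (∀ S z, z ∈ cl S → ∃ G : Finset (X ⊕ Y), (G : Set (X ⊕ Y)) ⊆ S ∧ z ∈ cl G) ∧
      (∀ S, S.Countable → (cl S).Countable) ∧
      (∀ S, ∀ x ∈ X₀, ∀ F : Finset Y, (∀ y ∈ F, Sum.inr y ∈ cl S) → ∀ ε > 0,
        ∃ a ∈ X₀, Sum.inl a ∈ cl S ∧ ∀ y ∈ F, |Φ a y - Φ x y| < ε) ∧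
      (∀ S, ∀ y, ∀ F : Finset X, (∀ x ∈ F, Sum.inl x ∈ cl S) → ∀ ε > 0,
        ∃ b, Sum.inr b ∈ cl S ∧ ∀ x ∈ F, |Φ x b - Φ x y| < ε) := by
  classical
  choose DX hDX1 hDX2 hDX3 using exists_countable_dense Φ X₀
  choose DY hDY1 hDY2 hDY3 using exists_countable_dense (fun y x => Φ x y) (univ : Set Y)
  let op : Finset (X ⊕ Y) → Set (X ⊕ Y) := fun F =>
    Sum.inl '' DX F.toRight ∪ Sum.inr '' DY F.toLeft
  have hop : ∀ F, (op F).Countable := fun F =>
    ((hDX2 _).image _).union ((hDY2 _).image _)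
  refine ⟨fun S => {z | Cl op S z}, fun S z hz => Cl.base z hz, fun S T h z hz => Cl.mono h hz,
    fun S z hz => Cl.finitary hz, fun S hS => Cl.countable hop hS, ?_, ?_⟩
  · intro S x hx F hF ε hε
    obtain ⟨a, ha, hclose⟩ := hDX3 F x hx ε hε
    refine ⟨a, hDX1 F ha, ?_, hclose⟩
    refine Cl.step (F.map ⟨Sum.inr, Sum.inr_injective⟩) _ ?_ (Or.inl ⟨a, ?_, rfl⟩)
    · intro z hz
      obtain ⟨y, hy, rfl⟩ := Finset.mem_map.1 hz
      exact hF y hy
    · have : (F.map (⟨Sum.inr, Sum.inr_injective⟩ : Y ↪ X ⊕ Y)).toRight = F := by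
        ext y; simp
      rw [this]; exact ha
  · intro S y F hF ε hε
    obtain ⟨b, hb, hclose⟩ := hDY3 F y (mem_univ y) ε hε
    refine ⟨b, ?_, hclose⟩
    refine Cl.step (F.map ⟨Sum.inl, Sum.inl_injective⟩) _ ?_ (Or.inr ⟨b, ?_, rfl⟩)
    · intro z hz
      obtain ⟨x, hx, rfl⟩ := Finset.mem_map.1 hz
      exact hF x hx
    · have : (F.map (⟨Sum.inl, Sum.inl_injective⟩ : X ↪ X ⊕ Y)).toLeft = F := by
        ext x; simp
      rw [this]; exact hb

/-- A countable set is exhausted by a sequence of finite subsets. -/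
theorem exists_exhaust {α : Type u} {B : Set α} (hB : B.Countable) :
    ∃ F : ℕ → Finset α, (∀ j, ∀ b ∈ F j, b ∈ B) ∧ ∀ b ∈ B, ∀ᶠ j in atTop, b ∈ F j := by
  obtain ⟨f, hf⟩ := Set.countable_iff_exists_injOn.1 hB
  have hfin : ∀ j, {b | b ∈ B ∧ f b ≤ j}.Finite := by
    intro j
    refine Finite.of_finite_image (f := f) ((finite_le_nat j).subset ?_) (hf.mono fun b hb => hb.1)
    rintro _ ⟨b, hb, rfl⟩
    exact hb.2
  refine ⟨fun j => (hfin j).toFinset, fun j b hb => ((hfin j).mem_toFinset.1 hb).1, ?_⟩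
  intro b hb
  filter_upwards [eventually_ge_atTop (f b)] with j hj
  exact (hfin j).mem_toFinset.2 ⟨hb, hj⟩

end Pool.Agent.MP_d985ac_gt.H93
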