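import Mathlib
import Pool.Agent.MP_d985ac_gt.H93.Retr

set_option autoImplicit false

universe u

open Set Filter Topology

namespace Pool.Agent.MP_d985ac_gt.H93

/-- A good family: continuous, Lipschitz for the sup distance of `Φ`, and of type `c₀`. -/
structure Good {K L : Type u} [TopologicalSpace K] (Φ : K → L → ℝ) (U : Set (K → ℝ)) : Prop where
  cont : ∀ u ∈ U, Continuous u
  lip : ∀ u ∈ U, ∀ x x' ε, (∀ y, |Φ x y - Φ x' y| ≤ ε) → |u x - u x'| ≤ ε
  fin : ∀ x, ∀ ε > 0, {u | u ∈ U ∧ ε ≤ |u x|}.Finite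

/-- `U` separates all pairs of points separated by `B`. -/
def Sepr {K L : Type u} (Φ : K → L → ℝ) (U : Set (K → ℝ)) (B : Set L) : Prop :=
  ∀ x x', (∃ b ∈ B, Φ x b ≠ Φ x' b) → ∃ u ∈ U, u x ≠ u x'

theorem base_case {K L : Type u} [TopologicalSpace K] {Φ : K → L → ℝ}
    (hK : ∀ y, Continuous fun x => Φ x y) (hbd : ∀ x y, |Φ x y| ≤ 1) {B : Set L}
    (hB : B.Countable) : ∃ U, Good Φ U ∧ Sepr Φ U B := by
  obtain ⟨f, hf⟩ := Set.countable_iff_exists_injOn.1 hB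
  have hpos : ∀ b, (0 : ℝ) < (f b : ℝ) + 1 := fun b => by positivity
  have hone : ∀ b, (1 : ℝ) ≤ (f b : ℝ) + 1 := fun b => by
    have : (0 : ℝ) ≤ f b := Nat.cast_nonneg _
    linarith
  refine ⟨(fun b => fun x => Φ x b / ((f b : ℝ) + 1)) '' B, ⟨?_, ?_, ?_⟩, ?_⟩
  · rintro _ ⟨b, -, rfl⟩
    exact (hK b).div_const _
  · rintro _ ⟨b, -, rfl⟩ x x' ε h
    have h1 := h b
    show |Φ x b / ((f b : ℝ) + 1) - Φ x' b / ((f b : ℝ) + 1)| ≤ ε
    rw [← sub_div, abs_div, abs_of_pos (hpos b)]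
    exact (div_le_self (abs_nonneg _) (hone b)).trans h1
  · intro x ε hε
    obtain ⟨N, hN⟩ := exists_nat_ge (1 / ε)
    have hfin : {b | b ∈ B ∧ f b ≤ N}.Finite := by
      refine Finite.of_finite_image (f := f) ((finite_le_nat N).subset ?_)
        (hf.mono fun b hb => hb.1)
      rintro _ ⟨b, hb, rfl⟩
      exact hb.2
    refine (hfin.image (fun b => fun x => Φ x b / ((f b : ℝ) + 1))).subset ?_
    rintro _ ⟨⟨b, hb, rfl⟩, h⟩
    refine ⟨b, ⟨hb, ?_⟩, rfl⟩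
    have h1 : ε ≤ |Φ x b / ((f b : ℝ) + 1)| := h
    rw [abs_div, abs_of_pos (hpos b), le_div_iff₀ (hpos b)] at h1
    have h2 := hbd x b
    have h3 : (f b : ℝ) + 1 ≤ 1 / ε := by
      rw [le_div_iff₀ hε]
      linarith
    have h4 : (f b : ℝ) ≤ N := by linarith
    exact_mod_cast h4
  · rintro x x' ⟨b, hb, hne⟩
    refine ⟨_, ⟨b, hb, rfl⟩, fun h => hne ?_⟩
    exact (div_left_inj' (hpos b).ne').1 h

section Step

variable {K L : Type u} [TopologicalSpace K] [TopologicalSpace L] [CompactSpace L]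
  {Φ : K → L → ℝ}
  {cl : Set (K ⊕ L) → Set (K ⊕ L)} {r : Set (K ⊕ L) → K → K}
  {ι : Type u} [LinearOrder ι] [WellFoundedLT ι] (s : ι → K ⊕ L)

theorem finite_jumps (hK : ∀ y, Continuous fun x => Φ x y) (hL : ∀ x, Continuous (Φ x))
    (hmono : ∀ S T, S ⊆ T → cl S ⊆ cl T)
    (hfin : ∀ S z, z ∈ cl S → ∃ G : Finset (K ⊕ L), (G : Set (K ⊕ L)) ⊆ S ∧ z ∈ cl G)
    (hr : ∀ S, IsRet Φ {a | Sum.inl a ∈ cl S} {b | Sum.inr b ∈ cl S} (r S))
    (x : K) {ε : ℝ} (hε : 0 < ε) :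
    {i | ∃ y, ε < |Φ (r (s '' Iic i) x) y - Φ (r (s '' Iio i) x) y|}.Finite := by
  by_contra hinf
  have hinf' : Infinite {i | ∃ y, ε < |Φ (r (s '' Iic i) x) y - Φ (r (s '' Iio i) x) y|} :=
    Set.infinite_coe_iff.2 hinf
  obtain ⟨f₀, hf₀ | hf₀⟩ := Infinite.exists_strictMono_or_strictAnti
    {i | ∃ y, ε < |Φ (r (s '' Iic i) x) y - Φ (r (s '' Iio i) x) y|}
  swap
  · exact not_strictAnti_of_wellFoundedLT f₀ hf₀
  let f : ℕ → ι := fun n => (f₀ n).1
  have hf : StrictMono f := fun m n h => hf₀ h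
  have hy : ∀ n, ∃ y, ε < |Φ (r (s '' Iic (f n)) x) y - Φ (r (s '' Iio (f n)) x) y| :=
    fun n => (f₀ n).2
  choose y hy using hy
  choose w hw using fun n => (hr (s '' Iic (f n))).dual (y n)
  choose w' hw' using fun n => (hr (s '' Iio (f n))).dual (y n)
  let T : Set (K ⊕ L) := ⋃ n, s '' Iio (f n)
  have hlohi : ∀ n, s '' Iio (f n) ⊆ s '' Iic (f n) := fun n => image_mono Iio_subset_Iic_self
  have hloT : ∀ n, s '' Iio (f n) ⊆ T := fun n => subset_iUnion (fun n => s '' Iio (f n)) n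
  have hhiT : ∀ n, s '' Iic (f n) ⊆ T := fun n =>
    (image_mono (Iic_subset_Iio.2 (hf (Nat.lt_succ_self n)))).trans (hloT (n + 1))
  have hmon : Monotone fun n => s '' Iio (f n) := fun m n h =>
    image_mono (Iio_subset_Iio (hf.monotone h))
  obtain ⟨W, -, hW⟩ := isCompact_iff_ultrafilter_le_nhds.1 (isCompact_univ (X := L))
    ((hyperfilter ℕ).map w) (by simp)
  obtain ⟨W', -, hW'⟩ := isCompact_iff_ultrafilter_le_nhds.1 (isCompact_univ (X := L))
    ((hyperfilter ℕ).map w') (by simp)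
  have hWt : ∀ a, Tendsto (fun n => Φ a (w n)) (hyperfilter ℕ) (𝓝 (Φ a W)) :=
    fun a => ((hL a).tendsto W).comp hW
  have hWt' : ∀ a, Tendsto (fun n => Φ a (w' n)) (hyperfilter ℕ) (𝓝 (Φ a W')) :=
    fun a => ((hL a).tendsto W').comp hW'
  have hA : ∀ a, Sum.inl a ∈ cl T → Φ a W = Φ a W' := by
    intro a ha
    obtain ⟨G, hG, haG⟩ := hfin T _ ha
    obtain ⟨m, hm⟩ := hmon.directed_le.exists_mem_subset_of_finset_subset_biUnion hG
    have hev : ∀ᶠ n in atTop, Φ a (w n) = Φ a (w' n) := by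
      filter_upwards [eventually_ge_atTop m] with n hn
      have h1 : Sum.inl a ∈ cl (s '' Iio (f n)) := hmono _ _ (hm.trans (hmon hn)) haG
      have h2 : Sum.inl a ∈ cl (s '' Iic (f n)) := hmono _ _ (hlohi n) h1
      rw [← hw n a, ← hw' n a, (hr _).fix h1, (hr _).fix h2]
    exact tendsto_nhds_unique_of_eventuallyEq (hWt a) (hWt' a)
      (hev.filter_mono Nat.hyperfilter_le_atTop)
  have hz : Φ (r T x) W = Φ (r T x) W' :=
    (isClosed_eq (hK W) (hK W')).closure_subset_iff.2 (fun a ha => hA a ha) ((hr T).mem x)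
  have hle : ∀ n, ε ≤ |Φ (r T x) (w n) - Φ (r T x) (w' n)| := by
    intro n
    rw [← hw n, ← hw' n, (hr _).comp (hr T) (fun b hb => hmono _ _ (hhiT n) hb),
      (hr _).comp (hr T) (fun b hb => hmono _ _ (hloT n) hb)]
    exact (hy n).le
  have hlim := ((hWt (r T x)).sub (hWt' (r T x))).abs
  have := ge_of_tendsto' hlim hle
  rw [hz, sub_self, abs_zero] at this
  exact absurd hε (not_lt.2 this)

theorem step_case (hK : ∀ y, Continuous fun x => Φ x y) (hL : ∀ x, Continuous (Φ x))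
    (hmono : ∀ S T, S ⊆ T → cl S ⊆ cl T)
    (hfin : ∀ S z, z ∈ cl S → ∃ G : Finset (K ⊕ L), (G : Set (K ⊕ L)) ⊆ S ∧ z ∈ cl G)
    (hr : ∀ S, IsRet Φ {a | Sum.inl a ∈ cl S} {b | Sum.inr b ∈ cl S} (r S))
    (h0 : ∃ U, Good Φ U ∧ Sepr Φ U {b | Sum.inr b ∈ cl ∅})
    (hi : ∀ i, ∃ U, Good Φ U ∧ Sepr Φ U {b | Sum.inr b ∈ cl (s '' Iic i)}) :
    ∃ U, Good Φ U ∧ Sepr Φ U {b | Sum.inr b ∈ cl (s '' univ)} := by
  classical
  obtain ⟨U₀, hU₀, hS₀⟩ := h0
  choose U hU hS using hi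
  let D : ι → (K → ℝ) → (K → ℝ) := fun i u x =>
    (u (r (s '' Iic i) x) - u (r (s '' Iio i) x)) / 2
  have hrl : ∀ S x x' ε, (∀ y, |Φ x y - Φ x' y| ≤ ε) →
      ∀ y, |Φ (r S x) y - Φ (r S x') y| ≤ ε := by
    intro S x x' ε h y
    obtain ⟨w, hw⟩ := (hr S).dual y
    rw [hw, hw]
    exact h w
  refine ⟨U₀ ∪ ⋃ i, D i '' U i, ⟨?_, ?_, ?_⟩, ?_⟩
  · rintro v (hv | hv)
    · exact hU₀.cont v hv
    · obtain ⟨i, u, hu, rfl⟩ := mem_iUnion.1 hv
      exact ((((hU i).cont u hu).comp (hr _).cont).sub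
        (((hU i).cont u hu).comp (hr _).cont)).div_const _
  · rintro v (hv | hv) x x' ε h
    · exact hU₀.lip v hv x x' ε h
    · obtain ⟨i, u, hu, rfl⟩ := mem_iUnion.1 hv
      have h1 := (hU i).lip u hu _ _ ε (hrl (s '' Iic i) x x' ε h)
      have h2 := (hU i).lip u hu _ _ ε (hrl (s '' Iio i) x x' ε h)
      rw [abs_le] at h1 h2 ⊢
      simp only [D]
      constructor <;> linarith [h1.1, h1.2, h2.1, h2.2]
  · intro x ε hε
    have hJ := finite_jumps s hK hL hmono hfin hr x hε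
    have hall := (hU₀.fin x ε hε).union (hJ.biUnion (t := fun i => D i ''
      ({u | u ∈ U i ∧ ε ≤ |u (r (s '' Iic i) x)|} ∪ {u | u ∈ U i ∧ ε ≤ |u (r (s '' Iio i) x)|}))
      fun i _ => (((hU i).fin _ ε hε).union ((hU i).fin _ ε hε)).image _)
    refine hall.subset ?_
    rintro v ⟨hv | hv, hvx⟩
    · exact Or.inl ⟨hv, hvx⟩
    · obtain ⟨i, u, hu, rfl⟩ := mem_iUnion.1 hv
      have h1 : 2 * ε ≤ |u (r (s '' Iic i) x) - u (r (s '' Iio i) x)| := by
        have : ε ≤ |(u (r (s '' Iic i) x) - u (r (s '' Iio i) x)) / 2| := hvx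
        rw [abs_div, abs_two] at this
        linarith
      refine Or.inr (mem_iUnion₂.2 ⟨i, ?_, u, ?_, rfl⟩)
      · by_contra hcon
        have h2 := (hU i).lip u hu (r (s '' Iic i) x) (r (s '' Iio i) x) ε (fun y => by
          by_contra hy
          exact hcon ⟨y, not_le.1 hy⟩)
        linarith
      · by_contra hcon
        have h2 : |u (r (s '' Iic i) x)| < ε := by
          by_contra h
          exact hcon (Or.inl ⟨hu, not_lt.1 h⟩)
        have h3 : |u (r (s '' Iio i) x)| < ε := by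
          by_contra h
          exact hcon (Or.inr ⟨hu, not_lt.1 h⟩)
        have h4 := abs_sub (u (r (s '' Iic i) x)) (u (r (s '' Iio i) x))
        linarith
  · intro x x' hxx
    by_cases hz : ∃ b, Sum.inr b ∈ cl ∅ ∧ Φ x b ≠ Φ x' b
    · obtain ⟨u, hu, hne⟩ := hS₀ x x' hz
      exact ⟨u, Or.inl hu, hne⟩
    have key : ∀ J : Set ι, (∃ b, Sum.inr b ∈ cl (s '' J) ∧ Φ x b ≠ Φ x' b) →
        ∃ j ∈ J, ∃ b, Sum.inr b ∈ cl (s '' Iic j) ∧ Φ x b ≠ Φ x' b := by
      rintro J ⟨b, hb, hne⟩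
      obtain ⟨G, hG, hbG⟩ := hfin _ _ hb
      obtain ⟨J', hJ', rfl⟩ := Finset.subset_set_image_iff.1 hG
      rcases J'.eq_empty_or_nonempty with rfl | hne'
      · exact absurd ⟨b, by simpa using hbG, hne⟩ hz
      · refine ⟨J'.max' hne', hJ' (J'.max'_mem hne'), b, hmono _ _ ?_ hbG, hne⟩
        rw [Finset.coe_image]
        exact image_mono fun j hj => J'.le_max' j hj
    obtain ⟨j, -, hj⟩ := key univ hxx
    obtain ⟨i, hi, hmin⟩ := WellFounded.has_min (wellFounded_lt (α := ι))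
      {j | ∃ b, Sum.inr b ∈ cl (s '' Iic j) ∧ Φ x b ≠ Φ x' b} ⟨j, hj⟩
    have hlo : ∀ b, Sum.inr b ∈ cl (s '' Iio i) → Φ x b = Φ x' b := by
      intro b hb
      by_contra hne
      obtain ⟨j, hj, hj'⟩ := key (Iio i) ⟨b, hb, hne⟩
      exact hmin j hj' hj
    have h1 : r (s '' Iio i) x = r (s '' Iio i) x' :=
      (hr _).uniq _ _ ((hr _).mem x') fun b hb => ((hr _).val x' b hb).trans (hlo b hb).symm
    obtain ⟨b, hb, hne⟩ := hi
    obtain ⟨u, hu, hune⟩ := hS i (r (s '' Iic i) x) (r (s '' Iic i) x') ⟨b, hb, by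
      rw [(hr _).val x b hb, (hr _).val x' b hb]; exact hne⟩
    refine ⟨D i u, Or.inr (mem_iUnion.2 ⟨i, u, hu, rfl⟩), fun h => hune ?_⟩
    simp only [D, h1] at h
    linarith

end Step

/-- Amir-Lindenstrauss type theorem for a bounded separately continuous function on a product
of two compact spaces. -/
theorem amir_lindenstrauss {K L : Type u} [TopologicalSpace K] [CompactSpace K]
    [TopologicalSpace L] [CompactSpace L] (Φ : K → L → ℝ)
    (hK : ∀ y, Continuous fun x => Φ x y) (hL : ∀ x, Continuous (Φ x))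
    (hsep : ∀ x x', (∀ y, Φ x y = Φ x' y) → x = x') (hbd : ∀ x y, |Φ x y| ≤ 1) :
    ∃ U : Set (K → ℝ), (∀ u ∈ U, Continuous u) ∧
      (∀ x, ∀ ε > 0, {u | u ∈ U ∧ ε ≤ |u x|}.Finite) ∧
      ∀ x x', (∀ u ∈ U, u x = u x') → x = x' := by
  obtain ⟨cl, hsub, hmono, hfin, hcount, hX, hY⟩ := exists_pairClosure Φ univ
  have hr : ∀ S, ∃ r, IsRet Φ {a | Sum.inl a ∈ cl S} {b | Sum.inr b ∈ cl S} r := by
    intro S
    refine exists_ret hK hL hsep ?_ ?_
    · intro x F hF ε hε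
      obtain ⟨a, -, ha, h⟩ := hX S x (mem_univ x) F hF ε hε
      exact ⟨a, ha, h⟩
    · intro y F hF ε hε
      exact hY S y F hF ε hε
  choose r hr using hr
  have hbase : ∀ S : Set (K ⊕ L), S.Countable →
      ∃ U, Good Φ U ∧ Sepr Φ U {b | Sum.inr b ∈ cl S} := fun S hS =>
    base_case hK hbd ((hcount S hS).preimage Sum.inr_injective)
  have main : ∀ c : Cardinal, ∀ S : Set (K ⊕ L), Cardinal.mk S = c →
      ∃ U, Good Φ U ∧ Sepr Φ U {b | Sum.inr b ∈ cl S} := by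
    intro c
    induction c using WellFoundedLT.induction with
    | ind c ih =>
      intro S hS
      by_cases hc : S.Countable
      · exact hbase S hc
      have hinf : Cardinal.aleph0 ≤ Cardinal.mk S := by
        rw [← Cardinal.le_aleph0_iff_set_countable] at hc
        exact (not_le.1 hc).le
      obtain ⟨lin, wf, hord⟩ := Cardinal.exists_ord_eq_type_lt S
      have := step_case (ι := S) Subtype.val hK hL hmono hfin hr (hbase ∅ countable_empty)
        (fun i => ih _ (hS ▸ Cardinal.mk_image_le.trans_lt (Cardinal.mk_Iic_lt i hord hinf))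
          _ rfl)
      simpa using this
  obtain ⟨U, hU, hS⟩ := main _ univ rfl
  refine ⟨U, hU.cont, hU.fin, fun x x' h => hsep x x' fun y => ?_⟩
  by_contra hne
  obtain ⟨u, hu, hune⟩ := hS x x' ⟨y, hsub _ (mem_univ _), hne⟩
  exact hune (h u hu)

end Pool.Agent.MP_d985ac_gt.H93
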