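import Mathlib
import Pool.Agent.MP_d985ac_gt.H93.Groth
import Pool.Agent.MP_d985ac_gt.H93.AL

set_option autoImplicit false

universe u

open Set Filter Topology

namespace Pool.Agent.MP_d985ac_gt.H93

/-- A function that agrees on every countable set with some continuous function. -/
def CC {κ : Type u} [TopologicalSpace κ] (φ : κ → ℝ) : Prop :=
  ∀ C : Set κ, C.Countable → ∃ ψ : κ → ℝ, Continuous ψ ∧ EqOn φ ψ C

theorem CC.of_continuous {κ : Type u} [TopologicalSpace κ] {φ : κ → ℝ} (h : Continuous φ) :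
    CC φ := fun _ _ => ⟨φ, h, fun _ _ => rfl⟩

theorem CC.comp {κ : Type u} [TopologicalSpace κ] {φ : κ → ℝ} (h : CC φ) {T : ℝ → ℝ}
    (hT : Continuous T) : CC (fun k => T (φ k)) := by
  intro C hC
  obtain ⟨ψ, hψ, h'⟩ := h C hC
  exact ⟨fun k => T (ψ k), hT.comp hψ, fun k hk => congrArg T (h' hk)⟩

theorem cc_pair {κ : Type u} [TopologicalSpace κ] {c : ℕ → κ} {k : κ}
    (hk : MapClusterPt k atTop c) {φ ψ : κ → ℝ} (hφ : CC φ) (hψ : CC ψ) {ε : ℝ} (hε : 0 < ε) :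
    ∃ᶠ j in atTop, |φ (c j) - φ k| < ε ∧ |ψ (c j) - ψ k| < ε := by
  have hC : (insert k (range c)).Countable := (countable_range c).insert k
  obtain ⟨φ', hφ', e1⟩ := hφ _ hC
  obtain ⟨ψ', hψ', e2⟩ := hψ _ hC
  have hn : {z | |φ' z - φ' k| < ε ∧ |ψ' z - ψ' k| < ε} ∈ 𝓝 k := by
    refine IsOpen.mem_nhds (IsOpen.inter ?_ ?_) (by simp [hε])
    · exact isOpen_lt (hφ'.sub continuous_const).abs continuous_const
    · exact isOpen_lt (hψ'.sub continuous_const).abs continuous_const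
  refine (mapClusterPt_iff_frequently.1 hk _ hn).mono fun j hj => ?_
  rw [e1 (mem_insert _ _), e2 (mem_insert _ _), e1 (mem_insert_of_mem _ (mem_range_self j)),
    e2 (mem_insert_of_mem _ (mem_range_self j))]
  exact hj

/-- Points in the closure of a bounded set agree with a point of `X` on countable families. -/
theorem exists_point {X κ : Type u} [TopologicalSpace X] (ev : X → κ → ℝ)
    (hev : ∀ k, Continuous fun x => ev x k) {A : Set X}
    (hA : ∀ f : X → ℝ, Continuous f → ∃ C : ℝ, ∀ x ∈ A, |f x| ≤ C)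
    {φ : κ → ℝ} (hφ : φ ∈ closure (ev '' A)) {C : Set κ} (hC : C.Countable) :
    ∃ x, ∀ k ∈ C, φ k = ev x k := by
  have := hC.to_subtype
  by_contra hcon
  let ρ : (κ → ℝ) → (C → ℝ) := fun θ k => θ k.1
  have hρ : Continuous ρ := continuous_pi fun k => continuous_apply k.1
  have hevc : Continuous ev := continuous_pi hev
  obtain ⟨H, hH, hH0, hHz⟩ : ∃ H : (C → ℝ) → ℝ, Continuous H ∧ (∀ θ, 0 ≤ H θ) ∧
      ∀ θ, H θ = 0 ↔ θ = ρ φ := by
    let : MetricSpace (C → ℝ) := TopologicalSpace.metrizableSpaceMetric (C → ℝ)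
    exact ⟨fun θ => dist θ (ρ φ), continuous_id.dist continuous_const, fun _ => dist_nonneg,
      fun _ => dist_eq_zero⟩
  have hpos : ∀ x, 0 < H (ρ (ev x)) := by
    intro x
    refine lt_of_le_of_ne (hH0 _) fun h => hcon ⟨x, fun k hk => ?_⟩
    exact (congrFun ((hHz _).1 h.symm) ⟨k, hk⟩).symm
  obtain ⟨M, hM⟩ := hA (fun x => (H (ρ (ev x)))⁻¹)
    ((hH.comp (hρ.comp hevc)).inv₀ fun x => (hpos x).ne')
  have hcl : IsClosed {θ : κ → ℝ | 1 ≤ M * H (ρ θ)} :=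
    isClosed_le continuous_const (continuous_const.mul (hH.comp hρ))
  have hsub : ev '' A ⊆ {θ : κ → ℝ | 1 ≤ M * H (ρ θ)} := by
    rintro _ ⟨x, hx, rfl⟩
    have h1 := (le_abs_self _).trans (hM x hx)
    have h2 := hpos x
    show 1 ≤ M * H (ρ (ev x))
    rw [inv_le_iff_one_le_mul₀ h2] at h1
    exact h1
  have h3 : 1 ≤ M * H (ρ φ) := hcl.closure_subset_iff.2 hsub hφ
  rw [(hHz _).2 rfl, mul_zero] at h3
  exact absurd h3 (by norm_num)

theorem isCompact_insert_zero {κ : Type u} (C : ℕ → Set (κ → ℝ)) (hC : ∀ n, IsCompact (C n))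
    (hb : ∀ n, ∀ φ ∈ C n, ∀ k, |φ k| ≤ 1 / ((n : ℝ) + 1)) :
    IsCompact (insert 0 (⋃ n, C n)) := by
  rw [isCompact_iff_ultrafilter_le_nhds']
  intro 𝒰 h𝒰
  by_cases h : ∃ n, C n ∈ 𝒰
  · obtain ⟨n, hn⟩ := h
    obtain ⟨x, hx, hle⟩ := isCompact_iff_ultrafilter_le_nhds'.1 (hC n) 𝒰 hn
    exact ⟨x, Or.inr (mem_iUnion.2 ⟨n, hx⟩), hle⟩
  · refine ⟨0, mem_insert _ _, ?_⟩
    have hc : ∀ n, (C n)ᶜ ∈ 𝒰 := fun n => Ultrafilter.compl_mem_iff_notMem.2 fun hn => h ⟨n, hn⟩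
    show Tendsto id (𝒰 : Filter (κ → ℝ)) (𝓝 0)
    rw [tendsto_pi_nhds]
    intro k
    rw [Metric.tendsto_nhds]
    intro ε hε
    obtain ⟨N, hN⟩ := exists_nat_one_div_lt hε
    have h1 : ∀ᶠ φ in (𝒰 : Filter (κ → ℝ)), ∀ n ∈ Iio N, φ ∈ (C n)ᶜ :=
      (eventually_all_finite (finite_Iio N)).2 fun n _ => hc n
    have h2 : ∀ᶠ φ in (𝒰 : Filter (κ → ℝ)), φ ∈ insert 0 (⋃ n, C n) := h𝒰
    filter_upwards [h1, h2] with φ hφ1 hφ2
    rcases hφ2 with rfl | hφ2
    · simpa using hε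
    · obtain ⟨n, hn⟩ := mem_iUnion.1 hφ2
      have hNn : N ≤ n := by
        by_contra hlt
        exact hφ1 n (not_le.1 hlt) hn
      have := (hb n φ hn k).trans (Nat.one_div_le_one_div hNn)
      simp only [id, Pi.zero_apply, dist_zero_right, Real.norm_eq_abs]
      exact this.trans_lt hN

/-- The abstract main step: a countably compact space with a compact, bounded, point-separating
family of countably continuous functions. -/
theorem exists_limit {κ : Type u} [TopologicalSpace κ]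
    (hcl : ∀ c : ℕ → κ, ∃ k, MapClusterPt k atTop c)
    {L : Set (κ → ℝ)} (hL : IsCompact L) (hLc : ∀ φ ∈ L, CC φ)
    (hLb : ∀ φ ∈ L, ∀ k, |φ k| ≤ 1)
    (hsep : ∀ k k', (∀ φ ∈ L, φ k = φ k') → k = k') (𝒰 : Ultrafilter κ) :
    ∃ k₀, ∀ φ : κ → ℝ, CC φ → (∀ k, |φ k| ≤ 1) → Tendsto φ 𝒰 (𝓝 (φ k₀)) := by
  have hlim : ∀ φ : κ → ℝ, ∃ t, (∀ k, |φ k| ≤ 1) → Tendsto φ 𝒰 (𝓝 t) := by
    intro φ
    by_cases hφ : ∀ k, |φ k| ≤ 1
    · obtain ⟨t, -, ht⟩ := isCompact_iff_ultrafilter_le_nhds'.1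
        (isCompact_Icc (a := (-1 : ℝ)) (b := 1)) (𝒰.map φ)
        (Ultrafilter.mem_map.2 (Filter.univ_mem' fun k => abs_le.1 (hφ k)))
      exact ⟨t, fun _ => ht⟩
    · exact ⟨0, fun h => absurd h hφ⟩
  choose g hg using hlim
  have key : ∀ φ₀, CC φ₀ → (∀ k, |φ₀ k| ≤ 1) → ∃ k, ∀ φ ∈ insert φ₀ L, φ k = g φ := by
    intro φ₀ h1 h2
    have hM : IsCompact (insert φ₀ L) := hL.insert φ₀
    have : CompactSpace (insert φ₀ L : Set (κ → ℝ)) := isCompact_iff_compactSpace.1 hM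
    have hc : ∀ φ ∈ insert φ₀ L, CC φ := by
      rintro φ (rfl | hφ)
      exacts [h1, hLc φ hφ]
    have hb : ∀ φ ∈ insert φ₀ L, ∀ k, |φ k| ≤ 1 := by
      rintro φ (rfl | hφ)
      exacts [h2, hLb φ hφ]
    obtain ⟨k, hk⟩ := groth (M := (insert φ₀ L : Set (κ → ℝ))) (fun k φ => φ.1 k)
      (fun k => (continuous_apply k).comp continuous_subtype_val)
      (fun c => by
        obtain ⟨k, hk⟩ := hcl c
        exact ⟨k, fun φ ψ ε hε => cc_pair hk (hc _ φ.2) (hc _ ψ.2) hε⟩)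
      (fun φ => g φ.1) (fun F ε hε => by
        have : ∀ᶠ k in (𝒰 : Filter κ), ∀ φ ∈ F, |φ.1 k - g φ.1| < ε := by
          rw [eventually_all_finset]
          intro φ _
          exact Metric.tendsto_nhds.1 (hg φ.1 (hb _ φ.2)) ε hε
        exact this.exists)
    exact ⟨k, fun φ hφ => hk ⟨φ, hφ⟩⟩
  obtain ⟨k₀, hk₀⟩ := key 0 (CC.of_continuous continuous_const) (by simp)
  refine ⟨k₀, fun φ h1 h2 => ?_⟩
  obtain ⟨k, hk⟩ := key φ h1 h2
  have : k = k₀ := hsep _ _ fun ψ hψ =>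
    (hk ψ (mem_insert_of_mem _ hψ)).trans (hk₀ ψ (mem_insert_of_mem _ hψ)).symm
  rw [← this, hk φ (mem_insert _ _)]
  exact hg φ h2

theorem abs_arctan_le (t : ℝ) : |Real.arctan t| ≤ 2 := by
  have h1 := Real.arctan_lt_pi_div_two t
  have h2 := Real.neg_pi_div_two_lt_arctan t
  have h3 := Real.pi_le_four
  rw [abs_le]
  constructor <;> linarith

theorem tendsto_of_arctan {α : Type u} {l : Filter α} {u : α → ℝ} {a : ℝ}
    (h : Tendsto (fun x => Real.arctan (u x) / 2) l (𝓝 (Real.arctan a / 2))) :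
    Tendsto u l (𝓝 a) := by
  have h1 : Tendsto (fun x => Real.arctan (u x)) l (𝓝 (Real.arctan a)) := by
    simpa using h.mul_const 2
  have h2 : ContinuousAt Real.tan (Real.arctan a) :=
    Real.continuousAt_tan.2 (Real.cos_arctan_pos a).ne'
  simpa [Function.comp_def] using h2.tendsto.comp h1

theorem main (X : Type u) [TopologicalSpace X] (A : ℕ → Set X)
    (hA : ∀ n, ∀ f : X → ℝ, Continuous f → ∃ C : ℝ, ∀ x ∈ A n, |f x| ≤ C)
    (hd : Dense (⋃ n, A n)) (K : Set (X → ℝ)) (hK : ∀ f ∈ K, Continuous f)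
    (hcc : IsCountablyCompact K) :
    IsCompact K ∧
      ∃ (Γ : Type u) (e : K → (Γ → ℝ)), Topology.IsEmbedding e ∧
        ∀ k : K, ∀ ε : ℝ, 0 < ε → {γ : Γ | ε ≤ |e k γ|}.Finite := by
  have hcl : ∀ c : ℕ → K, ∃ k, MapClusterPt k atTop c := by
    intro c
    obtain ⟨k, -, hk⟩ := isCountablyCompact_iff_seq_clusterPt.1
      (isCountablyCompact_iff_isCountablyCompact_univ.1 hcc) c (by simp)
    exact ⟨k, hk⟩
  let ev : X → K → ℝ := fun x k => k.1 x
  have hev : ∀ k, Continuous fun x => ev x k := fun k => hK k.1 k.2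
  have hevc : ∀ x, Continuous (ev x) := fun x => (continuous_apply x).comp continuous_subtype_val
  have hLn : ∀ n, IsCompact (closure (ev '' A n)) := by
    intro n
    choose C hC using fun k : K => hA n k.1 (hK k.1 k.2)
    refine (isCompact_univ_pi fun k : K => isCompact_Icc (a := -C k) (b := C k)).closure_of_subset ?_
    rintro _ ⟨x, hx, rfl⟩ k -
    exact abs_le.1 (hC k x hx)
  have hLc : ∀ n, ∀ φ ∈ closure (ev '' A n), CC φ := by
    intro n φ hφ C hC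
    obtain ⟨x, hx⟩ := exists_point ev hev (hA n) hφ hC
    exact ⟨ev x, hevc x, hx⟩
  let T : ℕ → ℝ → ℝ := fun n t => Real.arctan t / (2 * ((n : ℝ) + 1))
  have hT : ∀ n, Continuous (T n) := fun n => Real.continuous_arctan.div_const _
  have hpos : ∀ n : ℕ, (0 : ℝ) < 2 * ((n : ℝ) + 1) := fun n => by positivity
  have hTb : ∀ n t, |T n t| ≤ 1 / ((n : ℝ) + 1) := by
    intro n t
    show |Real.arctan t / (2 * ((n : ℝ) + 1))| ≤ 1 / ((n : ℝ) + 1)
    rw [abs_div, abs_of_pos (hpos n), div_le_div_iff₀ (hpos n) (by positivity)]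
    have := abs_arctan_le t
    have h2 : (0 : ℝ) ≤ (n : ℝ) + 1 := by positivity
    nlinarith
  let C : ℕ → Set (K → ℝ) := fun n => (fun φ k => T n (φ k)) '' closure (ev '' A n)
  have hC : ∀ n, IsCompact (C n) := fun n =>
    (hLn n).image (continuous_pi fun k => (hT n).comp (continuous_apply k))
  have hCb : ∀ n, ∀ φ ∈ C n, ∀ k, |φ k| ≤ 1 / ((n : ℝ) + 1) := by
    rintro n _ ⟨φ, -, rfl⟩ k
    exact hTb n _
  have hL := isCompact_insert_zero C hC hCb
  set L : Set (K → ℝ) := insert 0 (⋃ n, C n) with hLdef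
  have hLcc : ∀ φ ∈ L, CC φ := by
    rintro φ (rfl | hφ)
    · exact CC.of_continuous continuous_const
    · obtain ⟨n, ψ, hψ, rfl⟩ := mem_iUnion.1 hφ
      exact (hLc n ψ hψ).comp (hT n)
  have hLb : ∀ φ ∈ L, ∀ k, |φ k| ≤ 1 := by
    rintro φ (rfl | hφ) k
    · simp
    · obtain ⟨n, hn⟩ := mem_iUnion.1 hφ
      refine (hCb n φ hn k).trans ?_
      simpa using Nat.one_div_le_one_div (α := ℝ) (Nat.zero_le n)
  have hsep : ∀ k k' : K, (∀ φ ∈ L, φ k = φ k') → k = k' := by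
    intro k k' h
    refine Subtype.ext (Continuous.ext_on hd (hK _ k.2) (hK _ k'.2) fun x hx => ?_)
    obtain ⟨n, hn⟩ := mem_iUnion.1 hx
    have h1 := h (fun k => T n (ev x k)) (Or.inr (mem_iUnion.2
      ⟨n, ev x, subset_closure (mem_image_of_mem _ hn), rfl⟩))
    exact Real.arctan_injective ((div_left_inj' (hpos n).ne').1 h1)
  have hlim := exists_limit hcl hL hLcc hLb hsep
  have hconv : ∀ (𝒰 : Ultrafilter K) (k₀ : K),
      (∀ φ : K → ℝ, CC φ → (∀ k, |φ k| ≤ 1) → Tendsto φ 𝒰 (𝓝 (φ k₀))) →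
        (𝒰 : Filter K) ≤ 𝓝 k₀ := by
    intro 𝒰 k₀ h
    show Tendsto id (𝒰 : Filter K) (𝓝 k₀)
    rw [tendsto_subtype_rng, tendsto_pi_nhds]
    intro x
    refine tendsto_of_arctan (h (fun k => Real.arctan (ev x k) / 2) (CC.of_continuous
      ((Real.continuous_arctan.comp (hevc x)).div_const _)) fun k => ?_)
    rw [abs_div, abs_two, div_le_one (by norm_num)]
    exact abs_arctan_le _
  have hcomp : CompactSpace K := ⟨isCompact_iff_ultrafilter_le_nhds.2 fun 𝒰 _ => by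
    obtain ⟨k₀, hk₀⟩ := hlim 𝒰
    exact ⟨k₀, mem_univ _, hconv 𝒰 k₀ hk₀⟩⟩
  have hcont : ∀ φ ∈ L, Continuous φ := by
    intro φ hφ
    rw [continuous_iff_ultrafilter]
    intro k 𝒰 h𝒰
    obtain ⟨k₀, hk₀⟩ := hlim 𝒰
    have : k = k₀ := tendsto_nhds_unique (f := id) h𝒰 (hconv 𝒰 k₀ hk₀)
    rw [this]
    exact hk₀ φ (hLcc φ hφ) (hLb φ hφ)
  have : CompactSpace L := isCompact_iff_compactSpace.1 hL
  obtain ⟨U, hU1, hU2, hU3⟩ := amir_lindenstrauss (K := K) (L := L) (fun k φ => φ.1 k)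
    (fun φ => hcont φ.1 φ.2) (fun k => (continuous_apply k).comp continuous_subtype_val)
    (fun k k' h => hsep k k' fun φ hφ => h ⟨φ, hφ⟩) (fun k φ => hLb φ.1 φ.2 k)
  refine ⟨isCompact_iff_compactSpace.2 hcomp, U, fun k u => u.1 k, ?_, ?_⟩
  · have hc : Continuous (fun (k : K) (u : U) => u.1 k) := continuous_pi fun u => hU1 u.1 u.2
    refine (hc.isClosedEmbedding fun k k' h => hU3 k k' fun u hu => ?_).isEmbedding
    exact congrFun h ⟨u, hu⟩
  · intro k ε hε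
    refine Finite.of_finite_image (f := Subtype.val) ((hU2 k ε hε).subset ?_)
      Subtype.val_injective.injOn
    rintro _ ⟨u, hu, rfl⟩
    exact ⟨u.2, hu⟩

end Pool.Agent.MP_d985ac_gt.H93
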