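import Mathlib
import Pool.Agent.MP_d985ac_gt.H93.Main

set_option autoImplicit false

universe u v

open Set Filter Topology

namespace Pool.Agent.MP_d985ac_gt.H93

section C0

variable {Γ : Type u} [TopologicalSpace Γ] [DiscreteTopology Γ]

/-- an element of `c₀(Γ)` from a function -/
def mk0 (x : Γ → ℝ) (hx : ∀ ε : ℝ, 0 < ε → {γ | ε ≤ |x γ|}.Finite) :
    ZeroAtInftyContinuousMap Γ ℝ where
  toFun := x
  continuous_toFun := continuous_of_discreteTopology
  zero_at_infty' := by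
    rw [Filter.cocompact_eq_cofinite, Metric.tendsto_nhds]
    intro ε hε
    rw [Filter.eventually_cofinite]
    refine (hx ε hε).subset fun γ hγ => ?_
    simpa [Real.dist_eq] using hγ

theorem mk0_apply (x : Γ → ℝ) (hx : ∀ ε : ℝ, 0 < ε → {γ | ε ≤ |x γ|}.Finite) (γ : Γ) :
    mk0 x hx γ = x γ := rfl

theorem fin_of (x : ZeroAtInftyContinuousMap Γ ℝ) (ε : ℝ) (hε : 0 < ε) :
    {γ | ε ≤ |x γ|}.Finite := by
  have h := x.zero_at_infty'
  rw [Filter.cocompact_eq_cofinite, Metric.tendsto_nhds] at h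
  have h1 := h ε hε
  rw [Filter.eventually_cofinite] at h1
  refine h1.subset fun γ hγ => ?_
  simpa [Real.dist_eq] using hγ

omit [DiscreteTopology Γ] in
theorem norm_le_of (x : ZeroAtInftyContinuousMap Γ ℝ) {C : ℝ} (hC : 0 ≤ C)
    (h : ∀ γ, |x γ| ≤ C) : ‖x‖ ≤ C := by
  rw [← ZeroAtInftyContinuousMap.norm_toBCF_eq_norm]
  exact (BoundedContinuousFunction.norm_le hC).2 h

open Classical in
/-- unit vectors -/
noncomputable def dl (γ : Γ) : ZeroAtInftyContinuousMap Γ ℝ :=
  mk0 (fun γ' => if γ' = γ then 1 else 0) (fun ε hε => (finite_singleton γ).subset fun γ' h => by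
    by_contra hne
    have hne' : γ' ≠ γ := hne
    simp only [mem_ofPred_eq, if_neg hne', abs_zero] at h
    linarith)

open Classical in
theorem dl_apply (γ γ' : Γ) : dl γ γ' = if γ' = γ then 1 else 0 := rfl

/-- evaluation as an additive map -/
def evA (γ : Γ) : ZeroAtInftyContinuousMap Γ ℝ →+ ℝ where
  toFun x := x γ
  map_zero' := rfl
  map_add' _ _ := rfl

open Classical in
theorem sum_dl_apply (F : Finset Γ) (c : Γ → ℝ) (γ' : Γ) :
    (∑ γ ∈ F, c γ • dl γ) γ' = if γ' ∈ F then c γ' else 0 := by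
  have h : (∑ γ ∈ F, c γ • dl γ) γ' = ∑ γ ∈ F, (c γ • dl γ) γ' :=
    map_sum (evA γ') (fun γ => c γ • dl γ) F
  rw [h]
  simp only [ZeroAtInftyContinuousMap.smul_apply, dl_apply, smul_eq_mul, mul_ite, mul_one,
    mul_zero]
  exact Finset.sum_ite_eq F γ' c

theorem hasSum_dl (x : ZeroAtInftyContinuousMap Γ ℝ) : HasSum (fun γ => x γ • dl γ) x := by
  classical
  rw [HasSum, Metric.tendsto_nhds]
  intro ε hε
  have hF := fin_of x (ε / 2) (half_pos hε)
  simp only [SummationFilter.unconditional_filter]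
  filter_upwards [eventually_ge_atTop hF.toFinset] with F hFF
  rw [dist_eq_norm]
  refine lt_of_le_of_lt (norm_le_of _ (half_pos hε).le fun γ => ?_) (half_lt_self hε)
  rw [ZeroAtInftyContinuousMap.sub_apply, sum_dl_apply]
  split_ifs with h
  · simpa using (half_pos hε).le
  · have : ¬ (ε / 2 ≤ |x γ|) := fun h' => h (hFF (hF.mem_toFinset.2 h'))
    simpa using (not_le.1 this).le

theorem summable_coef (φ : ZeroAtInftyContinuousMap Γ ℝ →L[ℝ] ℝ) :
    Summable fun γ => |φ (dl γ)| := by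
  classical
  refine summable_of_sum_le (c := ‖φ‖) (fun γ => abs_nonneg _) fun F => ?_
  let c : Γ → ℝ := fun γ => if 0 ≤ φ (dl γ) then 1 else -1
  have h1 : ∑ γ ∈ F, |φ (dl γ)| = φ (∑ γ ∈ F, c γ • dl γ) := by
    rw [map_sum]
    refine Finset.sum_congr rfl fun γ _ => ?_
    rw [map_smul, smul_eq_mul]
    by_cases h : 0 ≤ φ (dl γ)
    · simp [c, h, abs_of_nonneg h]
    · simp [c, h, abs_of_neg (not_le.1 h)]
  have h2 : ‖∑ γ ∈ F, c γ • dl γ‖ ≤ 1 := by
    refine norm_le_of _ zero_le_one fun γ => ?_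
    rw [sum_dl_apply]
    split_ifs
    · simp only [c]
      split_ifs <;> simp
    · simp
  rw [h1]
  calc φ (∑ γ ∈ F, c γ • dl γ) ≤ ‖φ (∑ γ ∈ F, c γ • dl γ)‖ := le_abs_self _
    _ ≤ ‖φ‖ * ‖∑ γ ∈ F, c γ • dl γ‖ := φ.le_opNorm _
    _ ≤ ‖φ‖ * 1 := by gcongr
    _ = ‖φ‖ := mul_one _

theorem weak_cont {K : Type v} [TopologicalSpace K] (e : K → ZeroAtInftyContinuousMap Γ ℝ)
    (hb : ∀ k γ, |e k γ| ≤ 2) (hc : ∀ γ, Continuous fun k => e k γ)
    (φ : ZeroAtInftyContinuousMap Γ ℝ →L[ℝ] ℝ) : Continuous fun k => φ (e k) := by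
  have h : ∀ k, φ (e k) = ∑' γ, e k γ * φ (dl γ) := by
    intro k
    have := (φ.hasSum (hasSum_dl (e k))).tsum_eq
    simpa [map_smul] using this.symm
  simp only [h]
  refine continuous_tsum (u := fun γ => 2 * |φ (dl γ)|) (fun γ => (hc γ).mul continuous_const)
    ((summable_coef φ).mul_left 2) fun γ k => ?_
  rw [Real.norm_eq_abs, abs_mul]
  exact mul_le_mul_of_nonneg_right (hb k γ) (abs_nonneg _)

end C0

/-- A compact space that embeds in `c₀(Γ)` pointwise is homeomorphic to a weakly compact subset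
of a Banach space. -/
theorem eberlein_of_c0 {K : Type v} [TopologicalSpace K] [CompactSpace K] {Γ : Type u}
    (e : K → Γ → ℝ) (he : Continuous e) (hinj : Function.Injective e)
    (hfin : ∀ k, ∀ ε : ℝ, 0 < ε → {γ | ε ≤ |e k γ|}.Finite) :
    ∃ (E : Type u) (_ : NormedAddCommGroup E) (_ : NormedSpace ℝ E) (_ : CompleteSpace E)
      (S : Set (WeakSpace ℝ E)), IsCompact S ∧ Nonempty (K ≃ₜ S) := by
  let _ : TopologicalSpace Γ := ⊥
  have : DiscreteTopology Γ := ⟨rfl⟩
  have hle : ∀ t : ℝ, |Real.arctan t| ≤ |t| := by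
    intro t
    have key : ∀ s : ℝ, 0 ≤ s → |Real.arctan s| ≤ |s| := by
      intro s hs
      have h0 : 0 ≤ Real.arctan s := Real.arctan_nonneg.2 hs
      have h1 := Real.le_tan h0 (Real.arctan_lt_pi_div_two s)
      rw [Real.tan_arctan] at h1
      rwa [abs_of_nonneg h0, abs_of_nonneg hs]
    rcases le_total 0 t with h | h
    · exact key t h
    · have := key (-t) (by linarith)
      rwa [Real.arctan_neg, abs_neg, abs_neg] at this
  let e' : K → ZeroAtInftyContinuousMap Γ ℝ := fun k =>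
    mk0 (fun γ => Real.arctan (e k γ)) fun ε hε =>
      (hfin k ε hε).subset fun γ hγ => le_trans hγ (hle _)
  let w : K → WeakSpace ℝ (ZeroAtInftyContinuousMap Γ ℝ) := fun k => toWeakSpace ℝ _ (e' k)
  have hw : Continuous w := by
    refine WeakBilin.continuous_of_continuous_eval _ fun φ => ?_
    exact weak_cont e' (fun k γ => abs_arctan_le _)
      (fun γ => Real.continuous_arctan.comp ((continuous_apply γ).comp he)) φ
  have hwi : Function.Injective w := by
    intro k k' h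
    have h1 : e' k = e' k' := (toWeakSpace ℝ _).injective h
    refine hinj (funext fun γ => Real.arctan_injective ?_)
    exact congrArg (fun x : ZeroAtInftyContinuousMap Γ ℝ => x γ) h1
  refine ⟨ZeroAtInftyContinuousMap Γ ℝ, inferInstance, inferInstance, inferInstance, range w,
    isCompact_range hw, ⟨(hw.isClosedEmbedding hwi).isEmbedding.toHomeomorph⟩⟩

end Pool.Agent.MP_d985ac_gt.H93
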